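import Pool.Agent.N782.GN.StmV

/-!
# Project GN (helper782): growth of a Dirichlet series near `Re s = 1` from its twisted partial sums
-/

set_option autoImplicit false

namespace Pool.Agent.N946.GN

open Finset MeasureTheory Filter Asymptotics Topology
open Pool.Agent.N782.GN

/-- the partial sums -/
noncomputable def DD (g : ℕ → ℂ) (x : ℝ) : ℂ := ∑ n ∈ Icc 1 ⌊x⌋₊, g n

/-- the continuation -/
noncomputable def HH (g : ℕ → ℂ) (s : ℂ) : ℂ := s * mellin (DD g) (-s)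

theorem DD_zero (g : ℕ → ℂ) {x : ℝ} (hx : x < 1) : DD g x = 0 := by
  unfold DD
  rw [Nat.floor_eq_zero.2 hx]
  rfl

theorem DD_loc (g : ℕ → ℂ) : LocallyIntegrableOn (DD g) (Set.Ioi 0) := by
  have h := locallyIntegrableOn_mul_sum_Icc (m := 1) (a := 0) g le_rfl
    (g := fun _ : ℝ => (1 : ℂ)) (by
      exact (continuousOn_const).locallyIntegrableOn measurableSet_Ici)
  simp only [one_mul] at h
  exact h.mono_set Set.Ioi_subset_Ici_self

theorem HH_diff {g : ℕ → ℂ} {K α x₀ : ℝ} (h : ∀ x : ℝ, x₀ ≤ x → ‖DD g x‖ ≤ K * x ^ α) {s : ℂ}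
    (hs : α < s.re) : DifferentiableAt ℂ (HH g) s := by
  unfold HH
  refine differentiableAt_id.mul ?_
  have h1 : DifferentiableAt ℂ (mellin (DD g)) (-s) := by
    refine mellin_differentiableAt_of_isBigO_rpow (a := -α) (b := (-s).re - 1) (DD_loc g) ?_ ?_ ?_ ?_
    · simp only [neg_neg]
      refine IsBigO.of_bound K ?_
      filter_upwards [eventually_ge_atTop x₀, eventually_ge_atTop 0] with x hx hx0
      rw [Real.norm_of_nonneg (Real.rpow_nonneg hx0 _)]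
      exact h x hx
    · rw [Complex.neg_re]
      linarith
    · refine IsBigO.of_bound 1 ?_
      have : ∀ᶠ x : ℝ in 𝓝[>] 0, x < 1 :=
        nhdsWithin_le_nhds (eventually_lt_nhds one_pos)
      filter_upwards [this] with x hx
      rw [DD_zero g hx, norm_zero]
      positivity
    · linarith
  exact h1.comp s differentiableAt_id.neg

theorem HH_eq_integral (g : ℕ → ℂ) (s : ℂ) :
    HH g s = s * ∫ t in Set.Ioi (1 : ℝ), DD g t * (t : ℂ) ^ (-(s + 1)) := by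
  unfold HH mellin
  congr 1
  rw [setIntegral_eq_of_subset_of_ae_sdiff_eq_zero (s := Set.Ioi (1 : ℝ))
    measurableSet_Ioi.nullMeasurableSet (Set.Ioi_subset_Ioi zero_le_one)]
  · refine setIntegral_congr_fun measurableSet_Ioi fun t _ => ?_
    rw [smul_eq_mul, mul_comm]
    congr 2
    ring
  · have h1 : ∀ᵐ t : ℝ, t ≠ 1 := by
      rw [ae_iff]
      simp
    filter_upwards [h1] with t ht hm
    have h2 : t < 1 := lt_of_le_of_ne (not_lt.1 hm.2) ht
    rw [DD_zero g h2, smul_zero]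

/-- the divisor sum -/
theorem sum_div_le (N : ℕ) : (∑ n ∈ Icc 1 N, (n.divisors.card : ℝ)) ≤ N * (1 + Real.log N) := by
  have h1 : ∀ n ∈ Icc 1 N, (n.divisors.card : ℝ) = ∑ d ∈ Icc 1 N, if d ∣ n then (1 : ℝ) else 0 := by
    intro n hn
    rw [mem_Icc] at hn
    rw [Finset.sum_ite, sum_const_zero, add_zero, sum_const, nsmul_eq_mul, mul_one]
    congr 2
    ext d
    rw [Nat.mem_divisors, mem_filter, mem_Icc]
    constructor
    · rintro ⟨h1, h2⟩
      exact ⟨⟨Nat.pos_of_dvd_of_pos h1 hn.1, (Nat.le_of_dvd hn.1 h1).trans hn.2⟩, h1⟩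
    · rintro ⟨h1, h2⟩
      exact ⟨h2, by omega⟩
  rw [sum_congr rfl h1, sum_comm]
  have h2 : ∀ d ∈ Icc 1 N, (∑ n ∈ Icc 1 N, if d ∣ n then (1 : ℝ) else 0) ≤ (N : ℝ) / d := by
    intro d hd
    rw [mem_Icc] at hd
    rw [← sum_filter, sum_const, nsmul_eq_mul, mul_one]
    have h3 : ((Icc 1 N).filter (fun n => d ∣ n)).card = N / d := by
      have h4 := Nat.Ioc_filter_dvd_card_eq_div N d
      rw [← h4]
      congr 1
    rw [h3]
    exact Nat.cast_div_le
  refine (sum_le_sum h2).trans ?_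
  have h5 : (∑ d ∈ Icc 1 N, (N : ℝ) / d) = N * (harmonic N : ℝ) := by
    rw [harmonic_eq_sum_Icc]
    push_cast
    rw [mul_sum]
    exact sum_congr rfl fun d _ => div_eq_mul_inv _ _
  rw [h5]
  exact mul_le_mul_of_nonneg_left (harmonic_le_one_add_log N) (Nat.cast_nonneg _)

theorem sum_norm_bigO {g : ℕ → ℂ} (hg : ∀ n : ℕ, ‖g n‖ ≤ n.divisors.card) {r : ℝ} (hr : 1 < r) :
    (fun n : ℕ ↦ ∑ k ∈ Icc 1 n, ‖g k‖) =O[atTop] fun n : ℕ ↦ (n : ℝ) ^ r := by
  refine IsBigO.of_bound (1 + 1 / (r - 1)) ?_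
  filter_upwards [eventually_ge_atTop 1] with n hn
  have hn1 : (1 : ℝ) ≤ n := by exact_mod_cast hn
  have h0 : 0 ≤ ∑ k ∈ Icc 1 n, ‖g k‖ := sum_nonneg fun _ _ => norm_nonneg _
  rw [Real.norm_of_nonneg h0, Real.norm_of_nonneg (by positivity)]
  have h1 : ∑ k ∈ Icc 1 n, ‖g k‖ ≤ n * (1 + Real.log n) :=
    (sum_le_sum fun k _ => hg k).trans (sum_div_le n)
  have hr1 : 0 < r - 1 := by linarith
  have h2 : Real.log n ≤ (n : ℝ) ^ (r - 1) / (r - 1) :=
    Real.log_le_rpow_div (by linarith) hr1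
  have h3 : (1 : ℝ) ≤ (n : ℝ) ^ (r - 1) := Real.one_le_rpow hn1 hr1.le
  have h4 : (n : ℝ) ^ r = n * (n : ℝ) ^ (r - 1) := by
    rw [Real.rpow_sub_one (by linarith)]
    field_simp
  rw [h4]
  calc ∑ k ∈ Icc 1 n, ‖g k‖ ≤ n * (1 + Real.log n) := h1
    _ ≤ n * ((n : ℝ) ^ (r - 1) + (n : ℝ) ^ (r - 1) / (r - 1)) := by gcongr
    _ = (1 + 1 / (r - 1)) * (n * (n : ℝ) ^ (r - 1)) := by ring

theorem HH_eq_LSeries {g : ℕ → ℂ} (hg : ∀ n : ℕ, ‖g n‖ ≤ n.divisors.card) {s : ℂ}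
    (hs : 1 < s.re) : HH g s = LSeries g s := by
  rw [HH_eq_integral, LSeries_eq_mul_integral' g (r := (1 + s.re) / 2) (by linarith)
    (by linarith) (sum_norm_bigO hg (by linarith))]
  rfl

/-- the twisted coefficients -/
noncomputable def tw (f : ℕ → ℂ) (t : ℝ) (n : ℕ) : ℂ := f n * (n : ℂ) ^ (-(t : ℂ) * Complex.I)

theorem ds_eq (f : ℕ → ℂ) (x t : ℝ) : ds f x t = DD (tw f t) x := rfl

theorem norm_tw_le {f : ℕ → ℂ} (hf : ∀ n : ℕ, ‖f n‖ ≤ n.divisors.card) (t : ℝ) (n : ℕ) :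
    ‖tw f t n‖ ≤ n.divisors.card := by
  unfold tw
  rcases Nat.eq_zero_or_pos n with rfl | hn
  · have h := hf 0
    simp only [Nat.divisors_zero, card_empty, Nat.cast_zero] at h ⊢
    rw [norm_mul]
    have h1 : ‖f 0‖ = 0 := le_antisymm h (norm_nonneg _)
    rw [h1, zero_mul]
  · rw [norm_mul, Complex.norm_natCast_cpow_of_pos hn]
    simpa using hf n

theorem LSeries_tw (f : ℕ → ℂ) (t : ℝ) (s : ℂ) :
    LSeries (tw f t) s = LSeries f (s + t * Complex.I) := by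
  unfold LSeries
  congr 1
  ext n
  rcases Nat.eq_zero_or_pos n with rfl | hn
  · simp
  · have hn0 : (n : ℂ) ≠ 0 := by exact_mod_cast hn.ne'
    rw [LSeries.term_of_ne_zero hn.ne', LSeries.term_of_ne_zero hn.ne', Complex.cpow_add _ _ hn0]
    unfold tw
    rw [neg_mul, Complex.cpow_neg]
    field_simp

theorem DD_bound {g : ℕ → ℂ} (hg : ∀ n : ℕ, ‖g n‖ ≤ n.divisors.card) {x : ℝ} (hx : 1 ≤ x) :
    ‖DD g x‖ ≤ x * (1 + Real.log x) := by
  unfold DD
  have h1 : ‖∑ n ∈ Icc 1 ⌊x⌋₊, g n‖ ≤ (⌊x⌋₊ : ℝ) * (1 + Real.log ⌊x⌋₊) :=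
    (norm_sum_le _ _).trans ((sum_le_sum fun k _ => hg k).trans (sum_div_le _))
  refine h1.trans ?_
  have h2 : (1 : ℝ) ≤ ⌊x⌋₊ := by exact_mod_cast Nat.le_floor (by exact_mod_cast hx)
  have h3 : (⌊x⌋₊ : ℝ) ≤ x := Nat.floor_le (by linarith)
  have h4 : 0 ≤ Real.log (⌊x⌋₊ : ℝ) := Real.log_nonneg h2
  have h5 : Real.log (⌊x⌋₊ : ℝ) ≤ Real.log x := Real.log_le_log (by linarith) h3
  gcongr

/-- the bound on the real axis -/
theorem HH_bound {g : ℕ → ℂ} (hg : ∀ n : ℕ, ‖g n‖ ≤ n.divisors.card) {x₀ η₀ σ : ℝ} (hx₀ : 3 ≤ x₀)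
    (hη : 0 < η₀) (hη1 : η₀ ≤ 1 / 10) (h : ∀ x : ℝ, x₀ ≤ x → ‖DD g x‖ ≤ x ^ (1 - η₀))
    (hσ : 1 - min (η₀ / 2) (1 / Real.log x₀) ≤ σ) (hσ3 : σ ≤ 3) :
    ‖HH g σ‖ ≤ 18 * ((Real.log x₀) ^ 2 + 1 / η₀) := by
  have hl1 : 1 ≤ Real.log x₀ := by
    rw [Real.le_log_iff_exp_le (by linarith)]
    have := Real.exp_one_lt_d9
    linarith
  have hσ1 : 1 - η₀ / 2 ≤ σ := by
    have := min_le_left (η₀ / 2) (1 / Real.log x₀)
    linarith
  have hσ2 : 1 - σ ≤ 1 / Real.log x₀ := by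
    have := min_le_right (η₀ / 2) (1 / Real.log x₀)
    linarith
  have hσ0 : 0 < σ := by linarith
  obtain ⟨b₁, hb₁⟩ : ∃ b : ℝ → ℝ, b = Set.indicator (Set.Ioc 1 x₀)
    (fun x => (1 + Real.log x₀) * 3 * x⁻¹) := ⟨_, rfl⟩
  obtain ⟨b₂, hb₂⟩ : ∃ b : ℝ → ℝ, b = Set.indicator (Set.Ioi x₀)
    (fun x => x ^ (-(η₀ + σ))) := ⟨_, rfl⟩
  have he : Real.exp 1 ≤ 3 := by
    have := Real.exp_one_lt_d9
    linarith
  have hi1 : IntegrableOn b₁ (Set.Ioi 1) := by
    rw [hb₁]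
    refine ((integrable_indicator_iff measurableSet_Ioc).2 ?_).integrableOn
    have hc : ContinuousOn (fun x : ℝ => (1 + Real.log x₀) * 3 * x⁻¹) (Set.Icc 1 x₀) := by
      refine continuousOn_const.mul (continuousOn_inv₀.mono ?_)
      intro x hx
      exact (zero_lt_one.trans_le hx.1).ne'
    exact (hc.integrableOn_Icc).mono_set Set.Ioc_subset_Icc_self
  have hi2 : IntegrableOn b₂ (Set.Ioi 1) := by
    rw [hb₂]
    refine ((integrable_indicator_iff measurableSet_Ioi).2 ?_).integrableOn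
    exact integrableOn_Ioi_rpow_of_lt (by linarith) (by linarith)
  have hs1 : Set.Ioc (1 : ℝ) x₀ ⊆ Set.Ioi 1 := fun x hx => hx.1
  have hs2 : Set.Ioi x₀ ⊆ Set.Ioi (1 : ℝ) := Set.Ioi_subset_Ioi (by linarith)
  have hv1 : ∫ x in Set.Ioi (1 : ℝ), b₁ x = (1 + Real.log x₀) * 3 * Real.log x₀ := by
    rw [hb₁, setIntegral_indicator measurableSet_Ioc,
      Set.inter_eq_right.2 hs1,
      ← intervalIntegral.integral_of_le (by linarith), intervalIntegral.integral_const_mul,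
      integral_inv_of_pos one_pos (by linarith), div_one]
  have hv2 : ∫ x in Set.Ioi (1 : ℝ), b₂ x ≤ 2 / η₀ := by
    rw [hb₂, setIntegral_indicator measurableSet_Ioi,
      Set.inter_eq_right.2 hs2,
      integral_Ioi_rpow_of_lt (by linarith) (by linarith)]
    have h1 : x₀ ^ (-(η₀ + σ) + 1) ≤ 1 := Real.rpow_le_one_of_one_le_of_nonpos (by linarith) (by linarith)
    have h2 : -(x₀ ^ (-(η₀ + σ) + 1)) / (-(η₀ + σ) + 1) = x₀ ^ (-(η₀ + σ) + 1) / (η₀ + σ - 1) := by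
      rw [← neg_div_neg_eq, neg_neg]
      congr 1
      ring
    rw [h2]
    calc x₀ ^ (-(η₀ + σ) + 1) / (η₀ + σ - 1) ≤ 1 / (η₀ / 2) := by
          apply div_le_div₀ zero_le_one h1 (by linarith) (by linarith)
      _ = 2 / η₀ := by
          field_simp
  have hmain : ‖∫ x in Set.Ioi (1 : ℝ), DD g x * (x : ℂ) ^ (-((σ : ℂ) + 1))‖ ≤
      ∫ x in Set.Ioi (1 : ℝ), (b₁ x + b₂ x) := by
    refine norm_integral_le_of_norm_le (hi1.add hi2) ?_
    rw [ae_restrict_iff' measurableSet_Ioi]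
    refine Eventually.of_forall fun x hx => ?_
    have hx1 : (1 : ℝ) < x := hx
    have hx0 : 0 < x := by linarith
    rw [norm_mul, Complex.norm_cpow_eq_rpow_re_of_pos hx0]
    have hre : (-((σ : ℂ) + 1)).re = -(σ + 1) := by simp
    rw [hre]
    rcases le_or_gt x x₀ with hxx | hxx
    · have e1 : b₁ x = (1 + Real.log x₀) * 3 * x⁻¹ := by
        have hm : x ∈ Set.Ioc 1 x₀ := ⟨hx1, hxx⟩
        rw [hb₁, Set.indicator_of_mem hm]
      have e2 : b₂ x = 0 := by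
        rw [hb₂, Set.indicator_of_notMem]
        exact not_lt.2 hxx
      rw [e1, e2, add_zero]
      have hlx : 0 ≤ Real.log x := Real.log_nonneg hx1.le
      have hlx2 : Real.log x ≤ Real.log x₀ := Real.log_le_log hx0 hxx
      have h3 : x ^ (1 - σ) ≤ 3 := by
        rw [Real.rpow_def_of_pos hx0]
        refine le_trans (Real.exp_le_exp.2 ?_) he
        rcases le_or_gt 0 (1 - σ) with h4 | h4
        · calc Real.log x * (1 - σ) ≤ Real.log x₀ * (1 / Real.log x₀) := by gcongr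
            _ = 1 := by field_simp
        · nlinarith
      calc ‖DD g x‖ * x ^ (-(σ + 1)) ≤ (x * (1 + Real.log x)) * x ^ (-(σ + 1)) := by
            gcongr
            exact DD_bound hg hx1.le
        _ = (1 + Real.log x) * x ^ (1 - σ) * x⁻¹ := by
            have : x ^ (-(σ + 1)) = x ^ (1 - σ) * x⁻¹ * x⁻¹ := by
              rw [show -(σ + 1) = (1 - σ) - 1 - 1 by ring, Real.rpow_sub_one hx0.ne',
                Real.rpow_sub_one hx0.ne']
              rfl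
            rw [this]
            field_simp
        _ ≤ (1 + Real.log x₀) * 3 * x⁻¹ := by gcongr
    · have e1 : b₁ x = 0 := by
        rw [hb₁, Set.indicator_of_notMem]
        exact fun h => not_lt.2 h.2 hxx
      have e2 : b₂ x = x ^ (-(η₀ + σ)) := by
        rw [hb₂, Set.indicator_of_mem (show x ∈ Set.Ioi x₀ from hxx)]
      rw [e1, e2, zero_add]
      calc ‖DD g x‖ * x ^ (-(σ + 1)) ≤ x ^ (1 - η₀) * x ^ (-(σ + 1)) := by
            gcongr
            exact h x hxx.le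
        _ = x ^ (-(η₀ + σ)) := by
            rw [← Real.rpow_add hx0]
            congr 1
            ring
  rw [HH_eq_integral, norm_mul, Complex.norm_real, Real.norm_of_nonneg hσ0.le]
  rw [integral_add hi1 hi2, hv1] at hmain
  have hn := norm_nonneg (∫ x in Set.Ioi (1 : ℝ), DD g x * (x : ℂ) ^ (-((σ : ℂ) + 1)))
  have hη0 : 0 < 1 / η₀ := by positivity
  have e3 : 2 / η₀ = 2 * (1 / η₀) := by ring
  calc σ * ‖∫ x in Set.Ioi (1 : ℝ), DD g x * (x : ℂ) ^ (-((σ : ℂ) + 1))‖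
      ≤ 3 * ((1 + Real.log x₀) * 3 * Real.log x₀ + 2 / η₀) := by
        refine mul_le_mul hσ3 (hmain.trans ?_) hn (by norm_num)
        linarith
    _ ≤ 18 * ((Real.log x₀) ^ 2 + 1 / η₀) := by
        rw [e3]
        nlinarith

theorem grow : S_GROW := by
  refine ⟨18, by norm_num, ?_⟩
  intro f T x₀ η₀ C₀ hT hx₀ hη hη1 hf0 hf h0 ht
  have h0' : ∀ x : ℝ, 1 ≤ x → ‖DD f x‖ ≤ C₀ * x ^ (9 / 10 : ℝ) := by
    intro x hx
    have h1 := h0 x hx
    rw [ds_eq] at h1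
    convert h1 using 3
    unfold tw
    ext n
    simp
  have hdiff : DifferentiableOn ℂ (HH f) {s | 9 / 10 < s.re} := fun s hs =>
    (HH_diff h0' hs).differentiableWithinAt
  refine ⟨HH f, hdiff, fun s hs => HH_eq_LSeries hf hs, ?_⟩
  intro s hs1 hs3 hsT
  have hlog : 1 ≤ Real.log x₀ := by
    rw [Real.le_log_iff_exp_le (by linarith)]
    have := Real.exp_one_lt_d9
    linarith
  have hmin : min (η₀ / 2) (1 / Real.log x₀) ≤ η₀ / 2 := min_le_left _ _
  obtain ⟨t, htdef⟩ : ∃ t : ℝ, t = s.im := ⟨_, rfl⟩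
  have hD : ∀ x : ℝ, x₀ ≤ x → ‖DD (tw f t) x‖ ≤ 1 * x ^ (1 - η₀) := by
    intro x hx
    rw [one_mul, ← ds_eq]
    exact ht x t hx (by rw [htdef]; exact hsT)
  have hU : IsOpen {z : ℂ | 1 - η₀ < z.re} := isOpen_lt continuous_const Complex.continuous_re
  have ha1 : AnalyticOnNhd ℂ (HH (tw f t)) {z : ℂ | 1 - η₀ < z.re} := by
    refine DifferentiableOn.analyticOnNhd (fun z hz => ?_) hU
    exact (HH_diff hD hz).differentiableWithinAt
  have ha2 : AnalyticOnNhd ℂ (fun z : ℂ => HH f (z + t * Complex.I)) {z : ℂ | 1 - η₀ < z.re} := by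
    refine DifferentiableOn.analyticOnNhd (fun z hz => ?_) hU
    have h1 : DifferentiableAt ℂ (HH f) (z + t * Complex.I) := by
      refine HH_diff h0' ?_
      have h2 : (z + t * Complex.I).re = z.re := by simp
      rw [h2]
      have : 1 - η₀ < z.re := hz
      linarith
    exact (h1.comp z (differentiableAt_id.add_const _)).differentiableWithinAt
  have hpre : IsPreconnected {z : ℂ | 1 - η₀ < z.re} := (convex_halfSpace_re_gt _).isPreconnected
  have hev : (fun z : ℂ => HH f (z + t * Complex.I)) =ᶠ[𝓝 (2 : ℂ)] HH (tw f t) := by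
    have h1 : ∀ᶠ z : ℂ in 𝓝 (2 : ℂ), 1 < z.re := by
      refine (isOpen_lt continuous_const Complex.continuous_re).mem_nhds ?_
      norm_num
    filter_upwards [h1] with z hz
    rw [HH_eq_LSeries (norm_tw_le hf t) hz, LSeries_tw, HH_eq_LSeries hf]
    simpa using hz
  have heq := ha2.eqOn_of_preconnected_of_eventuallyEq ha1 hpre
    (show (2 : ℂ) ∈ {z : ℂ | 1 - η₀ < z.re} by
      show 1 - η₀ < (2 : ℂ).re
      norm_num
      linarith) hev
  have hσ : (s.re : ℂ) ∈ {z : ℂ | 1 - η₀ < z.re} := by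
    show 1 - η₀ < ((s.re : ℝ) : ℂ).re
    rw [Complex.ofReal_re]
    linarith
  have h1 := heq hσ
  simp only at h1
  have h2 : (s.re : ℂ) + t * Complex.I = s := by
    rw [htdef]
    exact Complex.re_add_im s
  rw [h2] at h1
  rw [h1]
  exact HH_bound (norm_tw_le hf t) hx₀ hη hη1 (fun x hx => by simpa using hD x hx) hs1 hs3

end Pool.Agent.N946.GN
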